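import Pool.Agent.Helper34.FF.Goals4
import Pool.Agent.Helper34.FF.G1

/-!
# MP_7cb822_co, packet StmtMiddle
-/

namespace Pool.Agent.Helper14.FF

open Finset
open Pool.Agent.Helper34.FF
open scoped symmDiff Classical

theorem even_symm {V : Type} (A B : Finset (Sym2 V))
    (h : ∀ v, Odd (A.filter fun e => v ∈ e).card ↔ Odd (B.filter fun e => v ∈ e).card) :
    EvenSet (A ∆ B) := by
  intro v
  have h1 : ((A ∆ B).filter fun e => v ∈ e) =
      ((A.filter fun e => v ∈ e) \ (B.filter fun e => v ∈ e)) ∪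
      ((B.filter fun e => v ∈ e) \ (A.filter fun e => v ∈ e)) := by
    ext e
    simp only [mem_filter, mem_symmDiff, mem_union, mem_sdiff]
    tauto
  have h2 : Disjoint ((A.filter fun e => v ∈ e) \ (B.filter fun e => v ∈ e))
      ((B.filter fun e => v ∈ e) \ (A.filter fun e => v ∈ e)) := by
    rw [Finset.disjoint_left]
    intro e he he'
    simp only [mem_filter, mem_sdiff] at he he'
    tauto
  have h3 := card_union_of_disjoint h2
  have h4 := card_sdiff_add_card_inter (A.filter fun e => v ∈ e) (B.filter fun e => v ∈ e)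
  have h5 := card_sdiff_add_card_inter (B.filter fun e => v ∈ e) (A.filter fun e => v ∈ e)
  rw [inter_comm] at h5
  have h6 := h v
  rw [h1, h3]
  rw [Nat.odd_iff, Nat.odd_iff] at h6
  rw [Nat.even_iff]
  omega

section
variable {V F : Type} [Fintype V] [Fintype F] (T : Tri V F)

theorem not_inn {X Y : Finset F} (hXY : Disjoint X Y) {e : Sym2 V} (he : e ∈ T.bdry X) :
    e ∉ T.inn Y := by
  intro h
  unfold Tri.bdry at he
  unfold Tri.inn at h
  rw [mem_filter] at he h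
  have h1 := (pAlg V F T).2.2.2.1 e he.2.1
  have h2 : Disjoint (X.filter fun f => T.on e f) (Y.filter fun f => T.on e f) :=
    Finset.disjoint_filter_filter hXY
  have h3 := card_union_of_disjoint h2
  have h4 : (X.filter fun f => T.on e f) ∪ (Y.filter fun f => T.on e f) ⊆
      univ.filter fun f => T.on e f := by
    intro f hf
    simp only [mem_union, mem_filter, mem_univ, true_and] at hf ⊢
    tauto
  have h5 := card_le_card h4
  have h6 := he.2.2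
  have h7 := h.2.2
  omega

theorem arc_edge {X : Finset F} {l : ℕ} {c : ℤ → V} (hc : T.Enum X l c) (i j : ℤ) :
    ∀ e ∈ arcE c i j, e ∈ T.bdry X := by
  intro e he
  unfold arcE at he
  rw [mem_image] at he
  obtain ⟨t, _, rfl⟩ := he
  exact (hc.bd _).2 ⟨t, rfl⟩

/-- The region between two arcs with common ends. -/
theorem zmake (hT : T.Sphere) {P S D : Finset F} {l : ℕ} {c c' : ℤ → V} (hP : T.Enum P l c)
    (hS : T.Enum S l c') (hPD : Disjoint P D) (hSD : Disjoint S D) (hD : T.DC D) (i j : ℤ)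
    (hij : i < j) (hjl : j < i + l) (hi : c' i = c i) (hj : c' j = c j) :
    ∃ Z, Disjoint Z D ∧ T.bdry Z = arcE c' i j ∆ arcE c i j := by
  obtain ⟨_, _, _, _, _, _, hpP, _⟩ := pEnumFacts V F T hT P l c hP
  obtain ⟨_, _, _, _, _, _, hpS, _⟩ := pEnumFacts V F T hT S l c' hS
  obtain ⟨w1, w2, w3⟩ := hpP i j hij.le hjl
  obtain ⟨w1', w2', w3'⟩ := hpS i j hij.le hjl
  have q1 := ((pPar V T.G).2 _ _ _ _ w1 w2).2
  have q2 := ((pPar V T.G).2 _ _ _ _ w1' w2').2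
  rw [w3] at q1
  rw [w3', hi, hj] at q2
  have hev : EvenSet (arcE c' i j ∆ arcE c i j) := by
    apply even_symm
    intro v
    rw [q1 v, q2 v]
  have hG : ∀ e ∈ arcE c' i j ∆ arcE c i j, e ∈ T.G.edgeSet := by
    intro e he
    rw [mem_symmDiff] at he
    have h1 : e ∈ T.bdry S ∨ e ∈ T.bdry P := by
      rcases he with he | he
      · exact Or.inl (arc_edge T hS i j e he.1)
      · exact Or.inr (arc_edge T hP i j e he.1)
    unfold Tri.bdry at h1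
    simp only [mem_filter] at h1
    tauto
  obtain ⟨Z, hZ⟩ := hT.span _ hG hev
  have hnot : ∀ e ∈ T.bdry Z, e ∉ T.inn D := by
    intro e he
    rw [hZ, mem_symmDiff] at he
    rcases he with he | he
    · exact not_inn T hSD (arc_edge T hS i j e he.1)
    · exact not_inn T hPD (arc_edge T hP i j e he.1)
  rcases pNoCut V F T D Z hD hnot with h | h
  · refine ⟨Zᶜ, ?_, ?_⟩
    · rw [Finset.disjoint_left]
      intro f hf hf'
      exact (mem_compl.1 hf) (h hf')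
    · rw [(pAlg V F T).2.1 Z, hZ]
  · exact ⟨Z, h.symm, hZ⟩

theorem iso_shift (hT : T.Sphere) {P : Finset F} {l : ℕ} {c : ℤ → V} (hP : T.Iso P l c) (s : ℤ) :
    T.Iso P l (fun i => c (i + s)) := by
  obtain ⟨_, _, _, _, _, _, _, _, _, hsh⟩ := pEnumFacts V F T hT P l c hP.1
  refine ⟨hsh s, ?_⟩
  intro i j hij hjl
  have h := Pool.Agent.Helper7.FF.dist_int T P l c hP (i + s) (j + s) (by omega) (by omega)
  rw [show (j : ℤ) + s - (i + s) = j - i by ring] at h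
  refine h.trans ?_
  clear h
  omega

theorem arc_shift (c : ℤ → V) (s i j : ℤ) :
    arcE (fun i => c (i + s)) i j = arcE c (i + s) (j + s) := by
  unfold arcE
  ext e
  simp only [mem_image, mem_Ico]
  constructor
  · rintro ⟨t, ht, rfl⟩
    refine ⟨t + s, by omega, ?_⟩
    rw [show t + s + 1 = t + 1 + s by ring]
  · rintro ⟨t, ht, rfl⟩
    refine ⟨t - s, by omega, ?_⟩
    rw [show t - s + s = t by ring, show t - s + 1 + s = t + 1 by ring]

theorem arc_add (c : ℤ → V) {i j k : ℤ} (hij : i ≤ j) (hjk : j ≤ k) :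
    arcE c i k = arcE c i j ∪ arcE c j k := by
  unfold arcE
  ext e
  simp only [mem_image, mem_Ico, mem_union]
  constructor
  · rintro ⟨t, ht, rfl⟩
    by_cases h : t < j
    · exact Or.inl ⟨t, by omega, rfl⟩
    · exact Or.inr ⟨t, by omega, rfl⟩
  · rintro (⟨t, ht, rfl⟩ | ⟨t, ht, rfl⟩)
    · exact ⟨t, by omega, rfl⟩
    · exact ⟨t, by omega, rfl⟩

theorem arc_mono (c : ℤ → V) {i j k : ℤ} (hjk : j ≤ k) :
    arcE c i j ⊆ arcE c i k := by
  unfold arcE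
  exact image_subset_image (Ico_subset_Ico_right hjk)

theorem symm_six {α : Type} [DecidableEq α] (a b c d e f : Finset α) :
    (a ∆ (b ∆ c)) ∆ (d ∆ (e ∆ f)) ∆ (a ∆ d ∆ (b ∆ e ∆ (c ∆ f))) = ∅ := by
  rw [symmDiff_symmDiff_symmDiff_comm a (b ∆ c) d (e ∆ f),
    symmDiff_symmDiff_symmDiff_comm b c e f, symmDiff_self]
  rfl

theorem arc_three (hT : T.Sphere) {P : Finset F} {l : ℕ} {c : ℤ → V} (hP : T.Enum P l c)
    (p q : ℕ) (hpq : p ≤ q) (hql : q ≤ l) :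
    arcE c 0 p ∆ (arcE c p q ∆ arcE c q l) = T.bdry P := by
  obtain ⟨_, _, _, _, _, hf, _⟩ := pEnumFacts V F T hT P l c hP
  obtain ⟨_, _, h3, _⟩ := hf 0 p (by omega) (by omega)
  obtain ⟨_, _, _, h4⟩ := hf p q (by omega) (by omega)
  have h5 : Disjoint (arcE c p q) (arcE c q l) :=
    h4.mono_right (arc_mono c (by omega))
  have h6 : arcE c p q ∆ arcE c q l = arcE c p l := by
    rw [arc_add c (show (p : ℤ) ≤ q by omega) (show (q : ℤ) ≤ l by omega)]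
    exact (symmDiff_eq_sup _ _).2 h5
  rw [h6]
  rw [zero_add] at h3
  exact h3


theorem arc_card (hT : T.Sphere) {X : Finset F} {l : ℕ} {c : ℤ → V} (hX : T.Enum X l c)
    (i j : ℤ) (hij : i ≤ j) (hjl : j ≤ i + l) : (arcE c i j).card = (j - i).toNat := by
  obtain ⟨_, _, _, _, _, hf, _⟩ := pEnumFacts V F T hT X l c hX
  exact (hf i j hij hjl).1

theorem symm_card {α : Type} [DecidableEq α] (A B : Finset α) : (A ∆ B).card ≤ A.card + B.card := by
  calc (A ∆ B).card ≤ (A ∪ B).card := card_le_card (by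
        intro t ht
        rw [mem_symmDiff] at ht
        rw [mem_union]
        rcases ht with h | h
        · exact Or.inl h.1
        · exact Or.inr h.1)
    _ ≤ A.card + B.card := card_union_le _ _

theorem z_len (hT : T.Sphere) {P S : Finset F} {l : ℕ} {c c' : ℤ → V}
    (hP : T.Enum P l c) (hS : T.Enum S l c') (Z : Finset F) (i j : ℤ) (n : ℕ)
    (hij : i ≤ j) (hjl : j ≤ i + l) (hn : (j - i).toNat = n)
    (hZ : T.bdry Z = arcE c' i j ∆ arcE c i j) : T.len Z ≤ 2 * n := by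
  have h1 := arc_card T hT hP i j hij hjl
  have h2 := arc_card T hT hS i j hij hjl
  have h3 := symm_card (arcE c' i j) (arcE c i j)
  unfold Tri.len
  rw [hZ]
  omega

theorem bead1 (hT : T.Sphere) (hBead : StmtBead) (P S Z D : Finset F) (l : ℕ) (c c' : ℤ → V)
    (e : ℕ) (hI : T.Iso P l c) (hI' : T.Iso S l c') (hPS : P ⊆ S) (hD : D.Nonempty)
    (hSD : Disjoint S D) (hZD : Disjoint Z D) (i j k : ℤ) (hij : i < j) (hjk : j < k)
    (hkl : k < i + l) (h2 : 2 * (j - i) ≤ l) (ei : c' i = c i) (ej : c' j = c j)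
    (ek : c' k = c k) (hbad : Bad T.G e (c k)) (hZ : T.bdry Z = arcE c' i j ∆ arcE c i j) :
    (T.Vin Z).card < e := by
  have hn : (((j - i).toNat : ℕ) : ℤ) = j - i := by omega
  have x1 : (fun t => c (t + i)) 0 = c i := by simp
  have x1' : (fun t => c' (t + i)) 0 = c' i := by simp
  have x2 : (fun t => c (t + i)) (((j - i).toNat : ℕ) : ℤ) = c j := by
    simp only [hn]; congr 1; ring
  have x2' : (fun t => c' (t + i)) (((j - i).toNat : ℕ) : ℤ) = c' j := by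
    simp only [hn]; congr 1; ring
  have x3 : (fun t => c (t + i)) (k - i) = c k := by
    simp only; congr 1; ring
  have x3' : (fun t => c' (t + i)) (k - i) = c' k := by
    simp only; congr 1; ring
  have y1 : T.bdry Z = arcE (fun t => c' (t + i)) 0 (((j - i).toNat : ℕ) : ℤ) ∆
      arcE (fun t => c (t + i)) 0 (((j - i).toNat : ℕ) : ℤ) := by
    rw [arc_shift, arc_shift, hZ, hn, zero_add, show j - i + i = j by ring]
  have o1 : 1 ≤ (j - i).toNat := by omega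
  have o2 : 2 * (j - i).toNat ≤ l := by omega
  have o3 : (((j - i).toNat : ℕ) : ℤ) < k - i := by omega
  have o4 : k - i < l := by omega
  exact hBead V F T hT P S Z D l (j - i).toNat (fun t => c (t + i)) (fun t => c' (t + i))
    (k - i) (k - i) (c k) e (iso_shift T hT hI i) (iso_shift T hT hI' i) hPS hD hSD hZD
    o1 o2 (x1'.trans (ei.trans x1.symm)) (x2'.trans (ej.trans x2.symm)) o3 o4 o3 o4 x3.symm
    (ek.symm.trans x3'.symm) hbad y1

theorem core (hT : T.Sphere) (hBead : StmtBead) (P S D : Finset F) (l : ℕ) (c c' : ℤ → V)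
    (e : ℕ) (hI : T.Iso P l c) (hI' : T.Iso S l c') (hPS : P ⊆ S) (hD : T.DC D)
    (hSD : Disjoint S D) (p q : ℕ) (hp : 0 < p) (hpq : p < q) (hql : q < l)
    (h1 : 2 * p ≤ l) (h2 : 2 * (q - p) ≤ l) (h3 : 2 * (l - q) ≤ l)
    (e0 : c' 0 = c 0) (e1 : c' p = c p) (e2 : c' q = c q)
    (b0 : Bad T.G e (c 0)) (b1 : Bad T.G e (c p)) (b2 : Bad T.G e (c q)) :
    ∃ Z1 Z2 Z3 : Finset F, S ∆ P = Z1 ∆ (Z2 ∆ Z3) ∧ (T.Vin Z1).card < e ∧
      (T.Vin Z2).card < e ∧ (T.Vin Z3).card < e ∧ T.len Z1 ≤ 2 * p ∧ T.len Z2 ≤ 2 * (q - p) ∧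
      T.len Z3 ≤ 2 * (l - q) := by
  have hdP : Disjoint P D := hSD.mono_left hPS
  have hl0 : c l = c 0 := by
    have := hI.1.per 0
    rwa [zero_add] at this
  have hl0' : c' l = c' 0 := by
    have := hI'.1.per 0
    rwa [zero_add] at this
  have hl1 : c (p + l) = c p := hI.1.per p
  have hl1' : c' (p + l) = c' p := hI'.1.per p
  have el : c' l = c l := by rw [hl0, hl0', e0]
  have epl : c' (p + l) = c (p + l) := by rw [hl1, hl1', e1]
  have bl : Bad T.G e (c l) := by rw [hl0]; exact b0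
  have bpl : Bad T.G e (c (p + l)) := by rw [hl1]; exact b1
  obtain ⟨Z1, hZ1, bZ1⟩ := zmake T hT hI.1 hI'.1 hdP hSD hD 0 p (by omega) (by omega) e0 e1
  obtain ⟨Z2, hZ2, bZ2⟩ := zmake T hT hI.1 hI'.1 hdP hSD hD p q (by omega) (by omega) e1 e2
  obtain ⟨Z3, hZ3, bZ3⟩ := zmake T hT hI.1 hI'.1 hdP hSD hD q l (by omega) (by omega) e2 el
  have k1 : (T.Vin Z1).card < e :=
    bead1 T hT hBead P S Z1 D l c c' e hI hI' hPS hD.1 hSD hZ1 0 p q (by omega) (by omega)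
      (by omega) (by omega) e0 e1 e2 b2 bZ1
  have k2 : (T.Vin Z2).card < e :=
    bead1 T hT hBead P S Z2 D l c c' e hI hI' hPS hD.1 hSD hZ2 p q l (by omega) (by omega)
      (by omega) (by omega) e1 e2 el bl bZ2
  have k3 : (T.Vin Z3).card < e :=
    bead1 T hT hBead P S Z3 D l c c' e hI hI' hPS hD.1 hSD hZ3 q l (p + l) (by omega) (by omega)
      (by omega) (by omega) e2 el epl bpl bZ3
  have l1 := z_len T hT hI.1 hI'.1 Z1 0 p p (by omega) (by omega) (by omega) bZ1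
  have l2 := z_len T hT hI.1 hI'.1 Z2 p q (q - p) (by omega) (by omega) (by omega) bZ2
  have l3 := z_len T hT hI.1 hI'.1 Z3 q l (l - q) (by omega) (by omega) (by omega) bZ3
  refine ⟨Z1, Z2, Z3, ?_, k1, k2, k3, l1, l2, l3⟩
  have hAdd := (pAlg V F T).1
  have t1 := arc_three T hT hI.1 p q hpq.le hql.le
  have t2 := arc_three T hT hI'.1 p q hpq.le hql.le
  have hb : T.bdry ((S ∆ P) ∆ (Z1 ∆ (Z2 ∆ Z3))) = ∅ := by
    rw [hAdd, hAdd, hAdd, hAdd, bZ1, bZ2, bZ3, ← t1, ← t2]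
    exact symm_six _ _ _ _ _ _
  rcases hT.dual _ hb with h | h
  · exact symmDiff_eq_bot.1 h
  · exfalso
    obtain ⟨f, hf⟩ := hD.1
    have hm : f ∈ (S ∆ P) ∆ (Z1 ∆ (Z2 ∆ Z3)) := by rw [h]; exact mem_univ f
    have n1 : f ∉ S := fun h => (Finset.disjoint_left.1 hSD h) hf
    have n2 : f ∉ P := fun h => (Finset.disjoint_left.1 hdP h) hf
    have n3 : f ∉ Z1 := fun h => (Finset.disjoint_left.1 hZ1 h) hf
    have n4 : f ∉ Z2 := fun h => (Finset.disjoint_left.1 hZ2 h) hf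
    have n5 : f ∉ Z3 := fun h => (Finset.disjoint_left.1 hZ3 h) hf
    rw [mem_symmDiff, mem_symmDiff, mem_symmDiff, mem_symmDiff] at hm
    rcases hm with ⟨⟨h, _⟩ | ⟨h, _⟩, _⟩ | ⟨⟨h, _⟩ | ⟨⟨h, _⟩ | ⟨h, _⟩, _⟩, _⟩
    · exact n1 h
    · exact n2 h
    · exact n3 h
    · exact n4 h
    · exact n5 h

theorem vin_sdiff {A B : Finset F} {u : V} (hA : u ∈ T.Vin A) (hB : u ∈ T.Vin Bᶜ) :
    u ∈ T.Vin (A \ B) := by
  unfold Tri.Vin at hA hB ⊢
  simp only [mem_filter, mem_univ, true_and, mem_compl, mem_sdiff] at hA hB ⊢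
  exact fun f hf => ⟨hA f hf, hB f hf⟩

theorem cover3 (hT : T.Sphere) (P S Z1 Z2 Z3 : Finset F) (hZ : S ∆ P = Z1 ∆ (Z2 ∆ Z3))
    (L : Finset V) : L ∩ T.Vin (S \ P) ⊆ ((T.Vin Z1 ∪ T.Vbd Z1) ∪ (T.Vin Z2 ∪ T.Vbd Z2)) ∪
      (T.Vin Z3 ∪ T.Vbd Z3) := by
  obtain ⟨hTri, -⟩ := pTri V F T hT
  intro u hu
  rw [mem_inter] at hu
  rw [mem_union, mem_union, mem_union, mem_union, mem_union]
  rcases hTri Z1 u with h1 | h1 | h1
  · exact Or.inl (Or.inl (Or.inl h1))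
  · exact Or.inl (Or.inl (Or.inr h1))
  rcases hTri Z2 u with h2 | h2 | h2
  · exact Or.inl (Or.inr (Or.inl h2))
  · exact Or.inl (Or.inr (Or.inr h2))
  rcases hTri Z3 u with h3 | h3 | h3
  · exact Or.inr (Or.inl h3)
  · exact Or.inr (Or.inr h3)
  exfalso
  obtain ⟨f, hf⟩ := hT.face u
  have hu2 := hu.2
  unfold Tri.Vin at h1 h2 h3 hu2
  simp only [mem_filter, mem_univ, true_and, mem_compl] at h1 h2 h3 hu2
  have m1 := h1 f hf
  have m2 := h2 f hf
  have m3 := h3 f hf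
  have m4 := mem_sdiff.1 (hu2 f hf)
  have m5 : f ∈ S ∆ P := by
    rw [mem_symmDiff]
    exact Or.inl m4
  rw [hZ, mem_symmDiff, mem_symmDiff] at m5
  rcases m5 with ⟨h, _⟩ | ⟨⟨h, _⟩ | ⟨h, _⟩, _⟩
  · exact m1 h
  · exact m2 h
  · exact m3 h

theorem cover_all (hT : T.Sphere) (L : Finset V) (Xa T₁ P S : Finset F) :
    T.UU L Xa T₁ ⊆ (((L ∩ T.Vin (P \ Xa)) ∪ T.Vbd P) ∪ ((L ∩ T.Vin (S \ P)) ∪ T.Vbd S)) ∪
      (L ∩ T.Vin (T₁ \ S)) := by
  obtain ⟨hTri, -⟩ := pTri V F T hT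
  intro u hu
  unfold Tri.UU at hu
  rw [mem_inter, mem_inter] at hu
  obtain ⟨⟨hL, hu1⟩, hu2⟩ := hu
  rw [mem_union, mem_union, mem_union, mem_union]
  rcases hTri P u with h | h | h
  · exact Or.inl (Or.inl (Or.inl (mem_inter.2 ⟨hL, vin_sdiff T h hu2⟩)))
  · exact Or.inl (Or.inl (Or.inr h))
  rcases hTri S u with h' | h' | h'
  · exact Or.inl (Or.inr (Or.inl (mem_inter.2 ⟨hL, vin_sdiff T h' h⟩)))
  · exact Or.inl (Or.inr (Or.inr h'))
  · exact Or.inr (mem_inter.2 ⟨hL, vin_sdiff T hu1 h'⟩)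

theorem count (hT : T.Sphere) (L : Finset V) (Xa T₁ P S Z1 Z2 Z3 : Finset F)
    (hZ : S ∆ P = Z1 ∆ (Z2 ∆ Z3)) (l p q e M : ℕ) (hpq : p ≤ q) (hql : q ≤ l)
    (hVbd : ∀ Y, (T.Vbd Y).card ≤ T.len Y)
    (k1 : (T.Vin Z1).card < e) (k2 : (T.Vin Z2).card < e) (k3 : (T.Vin Z3).card < e)
    (l1 : T.len Z1 ≤ 2 * p) (l2 : T.len Z2 ≤ 2 * (q - p)) (l3 : T.len Z3 ≤ 2 * (l - q))
    (hP : T.len P = l) (hS : T.len S = l) (hm1 : T.m L (T₁ \ S) ≤ M)
    (hm2 : T.m L (P \ Xa) ≤ M) : (T.UU L Xa T₁).card ≤ 2 * M + 4 * l + 3 * e := by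
  have c1 := card_le_card (cover3 T hT P S Z1 Z2 Z3 hZ L)
  have c2 := card_le_card (cover_all T hT L Xa T₁ P S)
  have u1 := card_union_le ((T.Vin Z1 ∪ T.Vbd Z1) ∪ (T.Vin Z2 ∪ T.Vbd Z2))
    (T.Vin Z3 ∪ T.Vbd Z3)
  have u2 := card_union_le (T.Vin Z1 ∪ T.Vbd Z1) (T.Vin Z2 ∪ T.Vbd Z2)
  have u3 := card_union_le (T.Vin Z1) (T.Vbd Z1)
  have u4 := card_union_le (T.Vin Z2) (T.Vbd Z2)
  have u5 := card_union_le (T.Vin Z3) (T.Vbd Z3)
  have v1 := card_union_le (((L ∩ T.Vin (P \ Xa)) ∪ T.Vbd P) ∪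
    ((L ∩ T.Vin (S \ P)) ∪ T.Vbd S)) (L ∩ T.Vin (T₁ \ S))
  have v2 := card_union_le ((L ∩ T.Vin (P \ Xa)) ∪ T.Vbd P) ((L ∩ T.Vin (S \ P)) ∪ T.Vbd S)
  have v3 := card_union_le (L ∩ T.Vin (P \ Xa)) (T.Vbd P)
  have v4 := card_union_le (L ∩ T.Vin (S \ P)) (T.Vbd S)
  have w1 := hVbd Z1
  have w2 := hVbd Z2
  have w3 := hVbd Z3
  have w4 := hVbd P
  have w5 := hVbd S
  unfold Tri.m at hm1 hm2
  omega

end

theorem arith1 (l p q dxy dyz dxz : ℕ) (hp : 0 < p) (hpq : p < q) (hq : q < l)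
    (d1 : dxy = min p (l - p)) (d2 : dyz = min (q - p) (l - (q - p))) (d3 : dxz = min q (l - q))
    (hcon : ¬ ((dxz = dxy + dyz ∧ 2 * dxz < l) ∨ (dxy = dxz + dyz ∧ 2 * dxy < l) ∨
      (dyz = dxy + dxz ∧ 2 * dyz < l))) :
    2 * p ≤ l ∧ 2 * (q - p) ≤ l ∧ 2 * (l - q) ≤ l ∧ dxy = p ∧ dyz = q - p := by
  omega

theorem pf_StmtMiddle (hPos : StmtPos) (hBead : StmtBead) (hMass : StmtMass) :
    StmtMiddle := by
  intro V F _ _ T hT L e l lam Xa T₁ P S x y z hA hTr hbig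
  have hVbd := (hMass V F T hT).1
  by_contra hcon
  rw [T.G.dist_comm (u := z) (v := y), T.G.dist_comm (u := y) (v := x)] at hcon
  have hPT : P ⊆ T₁ := hTr.PS.trans hTr.ST
  have hXS : Xa ⊆ S := hTr.XP.trans hTr.PS
  obtain ⟨c0, hc0⟩ := hA.iso P hTr.XP hPT hTr.lenP
  obtain ⟨c1, hc1⟩ := hA.iso S hXS hTr.ST hTr.lenS
  obtain ⟨c, p, q, hI, e0, e1, e2, hp, hpq, hq, d1, d2, d3⟩ :=
    hPos V F T hT P l c0 x y z hc0 hTr.hx.2.1 hTr.hy.2.1 hTr.hz.2.1 hTr.xy hTr.yz hTr.xz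
  obtain ⟨c', p', q', hI', e0', e1', e2', hp', hpq', hq', d1', d2', d3'⟩ :=
    hPos V F T hT S l c1 x y z hc1 hTr.hx.2.2 hTr.hy.2.2 hTr.hz.2.2 hTr.xy hTr.yz hTr.xz
  obtain ⟨f1, f2, f3, g1, g2⟩ := arith1 l p q _ _ _ hp hpq hq d1 d2 d3 hcon
  obtain ⟨f1', f2', f3', g1', g2'⟩ := arith1 l p' q' _ _ _ hp' hpq' hq' d1' d2' d3' hcon
  have hpp : p' = p := g1'.symm.trans g1
  have hqq0 : q' - p' = q - p := g2'.symm.trans g2
  have hqq : q' = q := by
    clear hbig hcon d1 d2 d3 d1' d2' d3' g1 g2 g1' g2'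
    omega
  subst hpp hqq
  have hdS : Disjoint S T₁ᶜ := by
    rw [Finset.disjoint_left]
    intro f hf hf'
    exact (mem_compl.1 hf') (hTr.ST hf)
  obtain ⟨Z1, Z2, Z3, hZ, k1, k2, k3, l1, l2, l3⟩ := core T hT hBead P S T₁ᶜ l c c' e hI hI'
    hTr.PS hA.bondT.2 hdS p' q' hp hpq hq f1 f2 f3 (by rw [e0, e0']) (by rw [e1, e1'])
    (by rw [e2, e2']) (by rw [e0]; exact hA.bad x hTr.hx.1) (by rw [e1]; exact hA.bad y hTr.hy.1)
    (by rw [e2]; exact hA.bad z hTr.hz.1)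
  have := count T hT L Xa T₁ P S Z1 Z2 Z3 hZ l p' q' e (3 * lam + 3 * l) hpq.le hq.le hVbd
    k1 k2 k3 l1 l2 l3 hTr.lenP hTr.lenS hTr.massS hTr.massP
  clear hcon d1 d2 d3 d1' d2' d3' g1 g2 g1' g2' k1 k2 k3 l1 l2 l3
  omega

end Pool.Agent.Helper14.FF
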